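import Pool.Agent.Helper90.MT.LowerMain
import Pool.Agent.Helper66.PV.Defs

/-!
# Project PV (helper66), module L: the main term for primes, a truncation for every colour
-/

set_option autoImplicit false

open Finset

namespace Pool.Agent.Helper95.PV

open Pool.Agent.Helper1.MT hiding ws_nonneg ws_supp
open Pool.Agent.Helper90.MT Pool.Agent.Helper66.PV

variable {ι κ : Type} [Fintype ι] [Fintype κ] [DecidableEq ι] [DecidableEq κ]

/-- The absolute values of `yv`. -/
noncomputable def Yt (t : ι → ℝ) (γ : κ → Finset ι → ℝ) (c : ι → Option κ) : ℝ :=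
  if T t (supp c) ≤ 1 then ∏ i : κ, γ i (cls c i) else 0

theorem signed_ym (m : κ) (w w' t : ι → ℝ) (γ : κ → Finset ι → ℝ) (c : ι → Option κ) :
    (-1) ^ (supp c).card * ym m w w' (yv t γ) c =
      ∑ c' : ι → Option κ, (∏ p, k2 m (w p) (w' p) (c p) (c' p)) * Yt t γ c' := by
  unfold ym yv
  rw [Finset.mul_sum]
  refine Finset.sum_congr rfl fun c' _ => ?_
  have h1 : ∏ p, k2 m (w p) (w' p) (c p) (c' p) =
      (∏ p, sg (c p)) * (∏ p, ker m (w p) (w' p) (c p) (c' p)) * ∏ p, sg (c' p) := by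
    rw [← Finset.prod_mul_distrib, ← Finset.prod_mul_distrib]
    refine Finset.prod_congr rfl fun p _ => ?_
    rcases c p with _ | i
    · rcases c' p with _ | j
      · simp [k2, ker, sg]
      · by_cases h : j = m
        · simp [k2, ker, sg, h]
        · simp [k2, ker, sg, h]
    · rcases c' p with _ | j
      · simp [k2, ker, sg]
      · by_cases h : i = j
        · simp [k2, ker, sg, h]
        · simp [k2, ker, sg, h]
  rw [h1, ← sg_prod, ← sg_prod]
  unfold Yt
  ring

/-- The product of the `γ` of the classes different from `m`. -/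
noncomputable def Pm (m : κ) (γ : κ → Finset ι → ℝ) (c : ι → Option κ) : ℝ :=
  ∏ i ∈ univ.erase m, γ i (cls c i)

theorem Yt_nonneg {t : ι → ℝ} {γ : κ → Finset ι → ℝ} (hg : ∀ i S, 0 ≤ γ i S) (c : ι → Option κ) :
    0 ≤ Yt t γ c := by
  unfold Yt
  split_ifs
  · exact Finset.prod_nonneg fun i _ => hg _ _
  · exact le_rfl

theorem Pm_nonneg (m : κ) {γ : κ → Finset ι → ℝ} (hg : ∀ i S, 0 ≤ γ i S) (c : ι → Option κ) :
    0 ≤ Pm m γ c := Finset.prod_nonneg fun i _ => hg _ _

section Main

variable {w w' t : ι → ℝ} {γ : κ → Finset ι → ℝ} {τ η : ℝ}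

theorem Yt_ext (hG : GoodV w t γ τ η) {m : κ} {c : ι → Option κ}
    (hc : cls c m = ∅) (hT : T t (supp c) ≤ 1 - τ) {S : Finset ι} (hS : Disjoint S (supp c)) :
    Yt t γ (ext m c S) = γ m S * Pm m γ c := by
  have h1 : ∏ i : κ, γ i (cls (ext m c S) i) = γ m S * Pm m γ c := by
    rw [← Finset.mul_prod_erase univ _ (Finset.mem_univ m), cls_ext_self hc]
    congr 1
    unfold Pm
    refine Finset.prod_congr rfl fun i hi => ?_
    rw [cls_ext_ne (Finset.ne_of_mem_erase hi) hS]
  unfold Yt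
  rw [h1]
  split_ifs with h
  · rfl
  · rcases eq_or_ne (γ m S) 0 with h0 | h0
    · rw [h0, zero_mul]
    · exfalso
      have h2 := hG.g_supp m S h0
      apply h
      rw [supp_ext]
      unfold T at *
      rw [Finset.sum_union hS.symm]
      linarith

theorem A_ge (hG : GoodV w t γ τ η) {m : κ} {c : ι → Option κ}
    (hc : cls c m = ∅) (hT : T t (supp c) ≤ 1 - τ) :
    Pm m γ c * (A1 w (γ m) * (1 - ∑ p ∈ supp c, w p)) ≤
      ∑ c' : ι → Option κ, (∏ p, kA m (w p) (c p) (c' p)) * Yt t γ c' := by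
  have hD : ∀ S, S ∈ univ.filter (fun S : Finset ι => Disjoint S (supp c)) ↔
      Disjoint S (supp c) := fun S => by simp
  have hinj : Set.InjOn (fun S : Finset ι => ext m c S)
      (univ.filter (fun S : Finset ι => Disjoint S (supp c)) : Finset (Finset ι)) := by
    intro S _ S' _ h
    have h1 : ext m c S = ext m c S' := h
    rw [← cls_ext_self hc S, h1, cls_ext_self hc S']
  have h1 : ∑ S ∈ univ.filter (fun S : Finset ι => Disjoint S (supp c)),
      γ m S * ws w S * Pm m γ c ≤
      ∑ c' : ι → Option κ, (∏ p, kA m (w p) (c p) (c' p)) * Yt t γ c' := by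
    have h2 : ∑ S ∈ univ.filter (fun S : Finset ι => Disjoint S (supp c)),
        γ m S * ws w S * Pm m γ c =
        ∑ c' ∈ (univ.filter (fun S : Finset ι => Disjoint S (supp c))).image
          (fun S : Finset ι => ext m c S),
          (∏ p, kA m (w p) (c p) (c' p)) * Yt t γ c' := by
      rw [Finset.sum_image hinj]
      refine Finset.sum_congr rfl fun S hS => ?_
      rw [prod_kA_ext w ((hD S).1 hS), Yt_ext hG hc hT ((hD S).1 hS)]
      ring
    rw [h2]
    refine Finset.sum_le_sum_of_subset_of_nonneg (Finset.subset_univ _) fun c' _ _ => ?_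
    exact mul_nonneg (Finset.prod_nonneg fun p _ => kA_nonneg m (hG.w_nonneg p) _ _)
      (Yt_nonneg hG.g_nonneg _)
  refine le_trans ?_ h1
  rw [← Finset.sum_mul, mul_comm]
  refine mul_le_mul_of_nonneg_right ?_ (Pm_nonneg m hG.g_nonneg c)
  -- the sum over the sets disjoint from the support
  have h3 : ∀ S : Finset ι, γ m S * ws w S ≤
      (if Disjoint S (supp c) then γ m S * ws w S else 0) +
        ∑ p ∈ supp c, (if p ∈ S then γ m S * ws w S else 0) := by
    intro S
    have h0 : 0 ≤ γ m S * ws w S := mul_nonneg (hG.g_nonneg m S) (ws_nonneg hG.w_nonneg S)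
    have h4 : ∀ p ∈ supp c, 0 ≤ (if p ∈ S then γ m S * ws w S else 0) := by
      intro p _
      split_ifs
      · exact h0
      · exact le_rfl
    split_ifs with hS
    · have := Finset.sum_nonneg h4
      linarith
    · rw [Finset.not_disjoint_iff] at hS
      obtain ⟨p, hp, hp'⟩ := hS
      have := Finset.single_le_sum h4 hp'
      rw [if_pos hp] at this
      linarith
  have h5 := Finset.sum_le_sum fun S (_ : S ∈ (univ : Finset (Finset ι))) => h3 S
  rw [Finset.sum_add_distrib, ← Finset.sum_filter, Finset.sum_comm] at h5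
  have h6 : ∑ p ∈ supp c, ∑ S : Finset ι, (if p ∈ S then γ m S * ws w S else 0) ≤
      ∑ p ∈ supp c, w p * A1 w (γ m) := Finset.sum_le_sum fun p _ =>
        memSum hG.w_nonneg (hG.g_nonneg m) (hG.g_anti m) p
  rw [← Finset.sum_mul] at h6
  have h7 : A1 w (γ m) = ∑ S : Finset ι, γ m S * ws w S := rfl
  rw [← h7] at h5
  linarith

theorem B_le (hG : GoodV w t γ τ η) (hw1 : ∀ p, w p ≤ w' p)
    (hw2 : ∀ p, w' p - w p ≤ 2 * w p ^ 2) {m : κ} {c : ι → Option κ} (hc : cls c m = ∅) :
    ∑ c' : ι → Option κ, (∏ p, |k2 m (w p) (w' p) (c p) (c' p)|) * Yt t γ c' ≤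
      Pm m γ c * (A1 w (γ m) * (1 + 4 * Fintype.card κ * η)) := by
  have he : ∀ p, 0 ≤ w' p - w p := fun p => by linarith [hw1 p]
  -- termwise
  have h1 : ∀ c' : ι → Option κ, (∏ p, |k2 m (w p) (w' p) (c p) (c' p)|) * Yt t γ c' ≤
      Pm m γ c * ((γ m (cls c' m) * ws w (cls c' m)) *
        ∏ p, kB m (w' p - w p) (c p) (del m c' p)) := by
    intro c'
    have hR : 0 ≤ Pm m γ c * ((γ m (cls c' m) * ws w (cls c' m)) *
        ∏ p, kB m (w' p - w p) (c p) (del m c' p)) :=
      mul_nonneg (Pm_nonneg m hG.g_nonneg c) (mul_nonneg (mul_nonneg (hG.g_nonneg _ _)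
        (ws_nonneg hG.w_nonneg _)) (Finset.prod_nonneg fun p _ => kB_nonneg m (he p) _ _))
    by_cases hz : ∏ p, |k2 m (w p) (w' p) (c p) (c' p)| = 0
    · rw [hz, zero_mul]
      exact hR
    · have h2 : ∀ p, c p ≠ none → c' p = c p := by
        intro p hp
        have h3 : k2 m (w p) (w' p) (c p) (c' p) ≠ 0 := by
          intro h4
          exact hz (Finset.prod_eq_zero (Finset.mem_univ p) (by rw [h4, abs_zero]))
        rcases hcp : c p with _ | i
        · exact absurd hcp hp
        · rw [hcp] at h3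
          rcases hcp' : c' p with _ | j
          · rw [hcp'] at h3
            exact absurd rfl h3
          · rw [hcp'] at h3
            by_contra hne
            apply h3
            have : i ≠ j := fun h => hne (by rw [h])
            simp [k2, this]
      have hm : ∀ p, c p ≠ some m := by
        intro p hp
        have : p ∈ cls c m := mem_cls.2 hp
        rw [hc] at this
        simp at this
      have h5 : ∏ p, |k2 m (w p) (w' p) (c p) (c' p)| =
          ws w (cls c' m) * ∏ p, kB m (w' p - w p) (c p) (del m c' p) := by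
        have h6 : ws w (cls c' m) = ∏ p, (if c' p = some m then w p else 1) := by
          unfold ws cls
          rw [Finset.prod_filter]
        rw [h6, ← Finset.prod_mul_distrib]
        refine Finset.prod_congr rfl fun p _ => ?_
        unfold del
        by_cases h7 : c' p = some m
        · rw [if_pos h7, if_pos h7]
          have h8 : c p = none := by
            by_contra h9
            exact hm p ((h2 p h9).symm.trans h7)
          rw [h8, h7]
          simp [k2, kB, abs_of_nonneg (hG.w_nonneg p)]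
        · rw [if_neg h7, if_neg h7, one_mul]
          rcases hcp : c p with _ | i
          · rcases hcp' : c' p with _ | j
            · simp [k2, kB]
            · have h8 : j ≠ m := by
                intro h9
                rw [h9] at hcp'
                exact h7 hcp'
              simp only [k2, kB, if_neg h8, abs_neg, abs_of_nonneg (he p)]
          · have h9 := h2 p (by rw [hcp]; simp)
            rw [h9, hcp]
            simp [k2, kB]
      have h10 : Yt t γ c' ≤ Pm m γ c * γ m (cls c' m) := by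
        have h11 : ∏ i : κ, γ i (cls c' i) ≤ Pm m γ c * γ m (cls c' m) := by
          rw [← Finset.mul_prod_erase univ _ (Finset.mem_univ m), mul_comm]
          refine mul_le_mul_of_nonneg_right ?_ (hG.g_nonneg _ _)
          unfold Pm
          refine Finset.prod_le_prod (fun i _ => hG.g_nonneg _ _) fun i _ => ?_
          refine hG.g_anti _ _ _ ?_
          intro p hp
          rw [mem_cls] at hp ⊢
          rw [h2 p (by rw [hp]; simp), hp]
        unfold Yt
        split_ifs
        · exact h11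
        · exact mul_nonneg (Pm_nonneg m hG.g_nonneg c) (hG.g_nonneg _ _)
      rw [h5]
      have h12 : 0 ≤ ws w (cls c' m) * ∏ p, kB m (w' p - w p) (c p) (del m c' p) :=
        mul_nonneg (ws_nonneg hG.w_nonneg _) (Finset.prod_nonneg fun p _ =>
          kB_nonneg m (he p) _ _)
      calc ws w (cls c' m) * (∏ p, kB m (w' p - w p) (c p) (del m c' p)) * Yt t γ c'
          ≤ ws w (cls c' m) * (∏ p, kB m (w' p - w p) (c p) (del m c' p)) *
            (Pm m γ c * γ m (cls c' m)) := mul_le_mul_of_nonneg_left h10 h12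
        _ = _ := by ring
  refine (Finset.sum_le_sum fun c' _ => h1 c').trans ?_
  rw [← Finset.mul_sum]
  refine mul_le_mul_of_nonneg_left ?_ (Pm_nonneg m hG.g_nonneg c)
  -- pass to pairs
  have hinj : Function.Injective fun c' : ι → Option κ => (cls c' m, del m c') := by
    intro a b h
    simp only [Prod.mk.injEq] at h
    obtain ⟨h2, h3⟩ := h
    funext p
    have h4 : a p = some m ↔ b p = some m := by rw [← mem_cls, ← mem_cls, h2]
    have h5 := congrFun h3 p
    unfold del at h5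
    by_cases h6 : a p = some m
    · rw [h6, h4.1 h6]
    · rwa [if_neg h6, if_neg fun h7 => h6 (h4.2 h7)] at h5
  have h2 : ∑ c' : ι → Option κ, (γ m (cls c' m) * ws w (cls c' m)) *
      ∏ p, kB m (w' p - w p) (c p) (del m c' p) ≤
      ∑ x : Finset ι × (ι → Option κ), (γ m x.1 * ws w x.1) *
        ∏ p, kB m (w' p - w p) (c p) (x.2 p) := by
    have h3 := Finset.sum_image (s := (univ : Finset (ι → Option κ)))
      (g := fun c' : ι → Option κ => (cls c' m, del m c'))
      (f := fun x : Finset ι × (ι → Option κ) => (γ m x.1 * ws w x.1) *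
        ∏ p, kB m (w' p - w p) (c p) (x.2 p)) hinj.injOn
    simp only at h3
    rw [← h3]
    refine Finset.sum_le_sum_of_subset_of_nonneg (Finset.subset_univ _) fun x _ _ => ?_
    exact mul_nonneg (mul_nonneg (hG.g_nonneg _ _) (ws_nonneg hG.w_nonneg _))
      (Finset.prod_nonneg fun p _ => kB_nonneg m (he p) _ _)
  refine h2.trans ?_
  rw [Fintype.sum_prod_type]
  simp only [← Finset.mul_sum]
  rw [← Finset.sum_mul]
  have h7 : A1 w (γ m) = ∑ S : Finset ι, γ m S * ws w S := rfl
  rw [← h7]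
  have hA : 0 ≤ A1 w (γ m) := Finset.sum_nonneg fun S _ =>
    mul_nonneg (hG.g_nonneg _ _) (ws_nonneg hG.w_nonneg _)
  refine mul_le_mul_of_nonneg_left ?_ hA
  rw [← prod_local (fun p a => kB m (w' p - w p) (c p) a)]
  -- local sums
  have h8 : ∀ p, ∑ a : Option κ, kB m (w' p - w p) (c p) a ≤
      1 + Fintype.card κ * (w' p - w p) := by
    intro p
    rw [Fintype.sum_option]
    rcases c p with _ | i
    · simp only [kB]
      have h9 : ∑ j : κ, (if j = m then (0 : ℝ) else w' p - w p) ≤ ∑ j : κ, (w' p - w p) := by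
        refine Finset.sum_le_sum fun j _ => ?_
        split_ifs
        · exact he p
        · exact le_rfl
      rw [Finset.sum_const, Finset.card_univ, nsmul_eq_mul] at h9
      linarith
    · simp only [kB]
      rw [Finset.sum_ite_eq univ i]
      simp only [Finset.mem_univ, if_true]
      have : 0 ≤ (Fintype.card κ : ℝ) * (w' p - w p) := mul_nonneg (Nat.cast_nonneg _) (he p)
      linarith
  have h9 : ∏ p, ∑ a : Option κ, kB m (w' p - w p) (c p) a ≤
      ∏ p, (1 + Fintype.card κ * (w' p - w p)) :=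
    Finset.prod_le_prod (fun p _ => Finset.sum_nonneg fun a _ => kB_nonneg m (he p) _ _)
      fun p _ => h8 p
  have h10 := prod_one_add_le (fun p => (Fintype.card κ : ℝ) * (w' p - w p))
    (fun p => mul_nonneg (Nat.cast_nonneg _) (he p))
  have h11 : ∑ p, (Fintype.card κ : ℝ) * (w' p - w p) ≤ 2 * Fintype.card κ * η := by
    rw [← Finset.mul_sum]
    have h12 : ∑ p, (w' p - w p) ≤ 2 * ∑ p, w p ^ 2 := by
      rw [Finset.mul_sum]
      exact Finset.sum_le_sum fun p _ => hw2 p
    have h13 : (0 : ℝ) ≤ Fintype.card κ := Nat.cast_nonneg _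
    have h14 := hG.sq
    nlinarith
  have hK : (1 : ℝ) ≤ Fintype.card κ := by
    have : 0 < Fintype.card κ := Fintype.card_pos_iff.2 ⟨m⟩
    exact_mod_cast this
  have hη : 0 ≤ η := le_trans (Finset.sum_nonneg fun p _ => sq_nonneg _) hG.sq
  have h12 : 2 * Fintype.card κ * η ≤ 1 / 2 := by
    have := hG.eta
    have h13 : (Fintype.card κ : ℝ) * η ≤ (Fintype.card κ : ℝ) ^ 2 * η := by
      refine mul_le_mul_of_nonneg_right ?_ hη
      nlinarith
    nlinarith
  have h13 := exp_le_two (mul_nonneg (by positivity) hη : 0 ≤ 2 * (Fintype.card κ : ℝ) * η) h12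
  have h14 := Real.exp_le_exp.2 h11
  have h15 : 1 + 2 * (2 * (Fintype.card κ : ℝ) * η) = 1 + 4 * Fintype.card κ * η := by ring
  rw [h15] at h13
  exact (h9.trans h10).trans (h14.trans h13)

/-- The lower bound for `ym`. -/
theorem ym_ge (hG : GoodV w t γ τ η) (hw1 : ∀ p, w p ≤ w' p)
    (hw2 : ∀ p, w' p - w p ≤ 2 * w p ^ 2) {m : κ} {c : ι → Option κ} (hc : cls c m = ∅)
    (hT : T t (supp c) ≤ 1 - τ) :
    Pm m γ c * A1 w (γ m) * (1 - 2 * ∑ p ∈ supp c, w p - 4 * Fintype.card κ * η) ≤
      (-1) ^ (supp c).card * ym m w w' (yv t γ) c := by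
  rw [signed_ym]
  have h1 : ∑ c' : ι → Option κ, (2 * (∏ p, kA m (w p) (c p) (c' p)) * Yt t γ c' -
      (∏ p, |k2 m (w p) (w' p) (c p) (c' p)|) * Yt t γ c') ≤
      ∑ c' : ι → Option κ, (∏ p, k2 m (w p) (w' p) (c p) (c' p)) * Yt t γ c' := by
    refine Finset.sum_le_sum fun c' _ => ?_
    have h2 := mul_le_mul_of_nonneg_right (prod_k2_ge m w' hG.w_nonneg c c')
      (Yt_nonneg (t := t) hG.g_nonneg c')
    linarith
  refine le_trans ?_ h1
  rw [Finset.sum_sub_distrib]
  have h3 : ∑ c' : ι → Option κ, 2 * (∏ p, kA m (w p) (c p) (c' p)) * Yt t γ c' =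
      2 * ∑ c' : ι → Option κ, (∏ p, kA m (w p) (c p) (c' p)) * Yt t γ c' := by
    rw [Finset.mul_sum]
    exact Finset.sum_congr rfl fun c' _ => by ring
  rw [h3]
  have h4 := A_ge hG hc hT
  have h5 := B_le (γ := γ) hG hw1 hw2 hc
  nlinarith

/-- The factors for the classes. -/
noncomputable def Gc (m : κ) (w : ι → ℝ) (γ : κ → Finset ι → ℝ) (i : κ) (S : Finset ι) : ℝ :=
  if i = m then (if S = ∅ then 1 else 0) else γ i S ^ 2 * ws w S

theorem Gc_nonneg (hw : ∀ p, 0 ≤ w p) (m i : κ) (S : Finset ι) : 0 ≤ Gc m w γ i S := by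
  unfold Gc
  split_ifs
  · exact zero_le_one
  · exact le_rfl
  · exact mul_nonneg (sq_nonneg _) (ws_nonneg hw _)

theorem Gc_sum (m i : κ) : ∑ S : Finset ι, Gc m w γ i S = if i = m then 1 else B1 w (γ i) := by
  unfold Gc
  split_ifs with h
  · rw [Finset.sum_ite_eq' univ (∅ : Finset ι)]
    simp
  · rfl

theorem Gc_prod_sum (m : κ) : ∏ i : κ, ∑ S : Finset ι, Gc m w γ i S =
    ∏ l ∈ univ.erase m, B1 w (γ l) := by
  simp only [Gc_sum]
  rw [← Finset.mul_prod_erase univ _ (Finset.mem_univ m), if_pos rfl, one_mul]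
  refine Finset.prod_congr rfl fun i hi => ?_
  rw [if_neg (Finset.ne_of_mem_erase hi)]

theorem BB_nonneg (hw : ∀ p, 0 ≤ w p) (m : κ) : 0 ≤ ∏ l ∈ univ.erase m, B1 w (γ l) :=
  Finset.prod_nonneg fun l _ => B1_nonneg (γ := γ l) hw

theorem Gc_mem (hG : GoodV w t γ τ η) (m i : κ) (p : ι) :
    ∑ S : Finset ι, (if p ∈ S then Gc m w γ i S else 0) ≤ w p * ∑ S : Finset ι, Gc m w γ i S := by
  by_cases h : i = m
  · have h1 : ∀ S : Finset ι, (if p ∈ S then Gc m w γ i S else 0) = 0 := by
      intro S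
      split_ifs with hp
      · unfold Gc
        rw [if_pos h, if_neg]
        intro h2
        rw [h2] at hp
        simp at hp
      · rfl
    simp only [h1, Finset.sum_const_zero]
    exact mul_nonneg (hG.w_nonneg p) (Finset.sum_nonneg fun S _ => Gc_nonneg hG.w_nonneg m i S)
  · unfold Gc
    simp only [if_neg h]
    exact memSum hG.w_nonneg (G := fun S => γ i S ^ 2) (fun S => sq_nonneg _)
      (fun S S' hS => by
        have h1 := hG.g_anti i S S' hS
        have h2 := hG.g_nonneg i S'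
        exact pow_le_pow_left₀ h2 h1 2) p

theorem pair_le (hG : GoodV w t γ τ η) (m i j : κ) (hij : i ≠ j) (p : ι) :
    ∑ f : κ → Finset ι, (if p ∈ f i ∧ p ∈ f j then ∏ l, Gc m w γ l (f l) else 0) ≤
      w p ^ 2 * (∏ l ∈ univ.erase m, B1 w (γ l)) := by
  have h1 : ∀ f : κ → Finset ι, (if p ∈ f i ∧ p ∈ f j then ∏ l, Gc m w γ l (f l) else 0) =
      ∏ l, (if l = i ∨ l = j then (if p ∈ f l then Gc m w γ l (f l) else 0)
        else Gc m w γ l (f l)) := by
    intro f
    split_ifs with h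
    · refine Finset.prod_congr rfl fun l _ => ?_
      split_ifs with h2 h3
      · rfl
      · exfalso
        rcases h2 with h2 | h2
        · exact h3 (h2 ▸ h.1)
        · exact h3 (h2 ▸ h.2)
      · rfl
    · symm
      rw [not_and_or] at h
      rcases h with h | h
      · exact Finset.prod_eq_zero (Finset.mem_univ i) (by simp [h])
      · exact Finset.prod_eq_zero (Finset.mem_univ j) (by simp [h])
  simp only [h1]
  have h2 := tuple_scale (G := fun l => Gc m w γ l)
    (G' := fun l S => if l = i ∨ l = j then (if p ∈ S then Gc m w γ l S else 0)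
      else Gc m w γ l S) (r := fun l => if l = i ∨ l = j then w p else 1)
    (fun l S => by
      have := Gc_nonneg (γ := γ) hG.w_nonneg m l S
      split_ifs
      · exact this
      · exact le_rfl
      · exact this)
    (fun l => by
      by_cases h : l = i ∨ l = j
      · simp only [if_pos h]
        exact Gc_mem hG m l p
      · simp only [if_neg h, one_mul]
        exact le_rfl)
  refine h2.trans (le_of_eq ?_)
  rw [Gc_prod_sum]
  congr 1
  rw [← Finset.prod_filter]
  have h3 : univ.filter (fun l => l = i ∨ l = j) = {i, j} := by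
    ext l
    simp
  rw [h3, Finset.prod_pair hij, sq]

/-- The sum of `∏ G i (cls c i)` over the colourings. -/
theorem Phi_ge (hG : GoodV w t γ τ η) (m : κ) :
    (1 - (Fintype.card κ : ℝ) ^ 2 * η) * (∏ l ∈ univ.erase m, B1 w (γ l)) ≤
      ∑ c : ι → Option κ, ∏ i, Gc m w γ i (cls c i) := by
  classical
  have hP : ∀ f : κ → Finset ι, 0 ≤ ∏ l, Gc m w γ l (f l) := fun f =>
    Finset.prod_nonneg fun l _ => Gc_nonneg hG.w_nonneg m l _
  have h1 := le_tuple (F := fun f : κ → Finset ι => ∏ l, Gc m w γ l (f l)) hP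
  refine le_trans ?_ h1
  have h2 : ∀ f : κ → Finset ι, ∏ l, Gc m w γ l (f l) ≤
      (if ∀ i j, i ≠ j → Disjoint (f i) (f j) then ∏ l, Gc m w γ l (f l) else 0) +
        ∑ i : κ, ∑ j : κ, ∑ p : ι, (if i ≠ j then
          (if p ∈ f i ∧ p ∈ f j then ∏ l, Gc m w γ l (f l) else 0) else 0) := by
    intro f
    have h0 := hP f
    have h3 : ∀ i j p, 0 ≤ (if i ≠ j then
          (if p ∈ f i ∧ p ∈ f j then ∏ l, Gc m w γ l (f l) else 0) else 0) := by
      intro i j p
      split_ifs
      · exact h0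
      · exact le_rfl
      · exact le_rfl
    split_ifs with h
    · have : 0 ≤ ∑ i : κ, ∑ j : κ, ∑ p : ι, (if i ≠ j then
          (if p ∈ f i ∧ p ∈ f j then ∏ l, Gc m w γ l (f l) else 0) else 0) :=
        Finset.sum_nonneg fun i _ => Finset.sum_nonneg fun j _ => Finset.sum_nonneg fun p _ =>
          h3 i j p
      linarith
    · push Not at h
      obtain ⟨i, j, hij, hd⟩ := h
      rw [Finset.not_disjoint_iff] at hd
      obtain ⟨p, hp, hp'⟩ := hd
      rw [zero_add]
      calc ∏ l, Gc m w γ l (f l) = (if i ≠ j then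
            (if p ∈ f i ∧ p ∈ f j then ∏ l, Gc m w γ l (f l) else 0) else 0) := by
            rw [if_pos hij, if_pos ⟨hp, hp'⟩]
        _ ≤ ∑ p : ι, (if i ≠ j then
            (if p ∈ f i ∧ p ∈ f j then ∏ l, Gc m w γ l (f l) else 0) else 0) :=
            Finset.single_le_sum (f := fun p => if i ≠ j then
              (if p ∈ f i ∧ p ∈ f j then ∏ l, Gc m w γ l (f l) else 0) else 0)
              (fun p _ => h3 i j p) (Finset.mem_univ p)
        _ ≤ ∑ j : κ, ∑ p : ι, (if i ≠ j then
            (if p ∈ f i ∧ p ∈ f j then ∏ l, Gc m w γ l (f l) else 0) else 0) :=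
            Finset.single_le_sum (f := fun j => ∑ p : ι, if i ≠ j then
              (if p ∈ f i ∧ p ∈ f j then ∏ l, Gc m w γ l (f l) else 0) else 0)
              (fun j _ => Finset.sum_nonneg fun p _ => h3 i j p) (Finset.mem_univ j)
        _ ≤ ∑ i : κ, ∑ j : κ, ∑ p : ι, (if i ≠ j then
            (if p ∈ f i ∧ p ∈ f j then ∏ l, Gc m w γ l (f l) else 0) else 0) :=
            Finset.single_le_sum (f := fun i => ∑ j : κ, ∑ p : ι, if i ≠ j then
              (if p ∈ f i ∧ p ∈ f j then ∏ l, Gc m w γ l (f l) else 0) else 0)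
              (fun i _ => Finset.sum_nonneg fun j _ => Finset.sum_nonneg fun p _ => h3 i j p)
              (Finset.mem_univ i)
  have h4 := Finset.sum_le_sum fun f (_ : f ∈ (univ : Finset (κ → Finset ι))) => h2 f
  rw [Finset.sum_add_distrib, ← Finset.sum_filter, ← prod_tuple, Gc_prod_sum] at h4
  have h5 : ∑ f : κ → Finset ι, ∑ i : κ, ∑ j : κ, ∑ p : ι, (if i ≠ j then
      (if p ∈ f i ∧ p ∈ f j then ∏ l, Gc m w γ l (f l) else 0) else 0) ≤
      (Fintype.card κ : ℝ) ^ 2 * η * (∏ l ∈ univ.erase m, B1 w (γ l)) := by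
    have hB := BB_nonneg (γ := γ) hG.w_nonneg m
    rw [Finset.sum_comm]
    have h6 : ∀ i : κ, ∑ f : κ → Finset ι, ∑ j : κ, ∑ p : ι, (if i ≠ j then
        (if p ∈ f i ∧ p ∈ f j then ∏ l, Gc m w γ l (f l) else 0) else 0) ≤
        (Fintype.card κ : ℝ) * (η * (∏ l ∈ univ.erase m, B1 w (γ l))) := by
      intro i
      rw [Finset.sum_comm]
      have h7 : ∀ j : κ, ∑ f : κ → Finset ι, ∑ p : ι, (if i ≠ j then
          (if p ∈ f i ∧ p ∈ f j then ∏ l, Gc m w γ l (f l) else 0) else 0) ≤
          η * (∏ l ∈ univ.erase m, B1 w (γ l)) := by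
        intro j
        have hη : 0 ≤ η := le_trans (Finset.sum_nonneg fun p _ => sq_nonneg _) hG.sq
        by_cases hij : i ≠ j
        · simp only [if_pos hij]
          rw [Finset.sum_comm]
          calc ∑ p : ι, ∑ f : κ → Finset ι,
                (if p ∈ f i ∧ p ∈ f j then ∏ l, Gc m w γ l (f l) else 0)
              ≤ ∑ p : ι, w p ^ 2 * (∏ l ∈ univ.erase m, B1 w (γ l)) :=
                Finset.sum_le_sum fun p _ => pair_le hG m i j hij p
            _ = (∑ p : ι, w p ^ 2) * (∏ l ∈ univ.erase m, B1 w (γ l)) := by rw [Finset.sum_mul]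
            _ ≤ _ := mul_le_mul_of_nonneg_right hG.sq hB
        · simp only [if_neg hij, Finset.sum_const_zero]
          exact mul_nonneg hη hB
      refine (Finset.sum_le_sum fun j _ => h7 j).trans ?_
      rw [Finset.sum_const, Finset.card_univ, nsmul_eq_mul]
    refine (Finset.sum_le_sum fun i _ => h6 i).trans ?_
    rw [Finset.sum_const, Finset.card_univ, nsmul_eq_mul]
    exact le_of_eq (by ring)
  linarith

/-- The sum of `∏ G i (cls c i)` times a function of one class. -/
theorem Phi_u (hG : GoodV w t γ τ η)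
    {ρ : κ → ℝ} (hM : ∀ i, M1 w t (γ i) ≤ ρ i * (1 - τ) * B1 w (γ i)) (m i : κ) {α : ℝ}
    (hα : 0 ≤ α) :
    ∑ c : ι → Option κ, (∏ l, Gc m w γ l (cls c l)) *
        (α * ∑ p ∈ cls c i, w p + T t (cls c i) / (1 - τ)) ≤
      (if i = m then 0 else α * η + ρ i) *
        (∏ l ∈ univ.erase m, B1 w (γ l)) := by
  have hτ : 0 < 1 - τ := by have := hG.tau_le; linarith
  have hu : ∀ S : Finset ι, 0 ≤ α * ∑ p ∈ S, w p + T t S / (1 - τ) := by
    intro S
    refine add_nonneg (mul_nonneg hα (Finset.sum_nonneg fun p _ => hG.w_nonneg p)) ?_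
    exact div_nonneg (Finset.sum_nonneg fun p _ => hG.t_nonneg p) hτ.le
  have h1 := tuple_le (F := fun f : κ → Finset ι => (∏ l, Gc m w γ l (f l)) *
        (α * ∑ p ∈ f i, w p + T t (f i) / (1 - τ)))
        (fun f => mul_nonneg (Finset.prod_nonneg fun l _ => Gc_nonneg hG.w_nonneg m l _) (hu _))
  refine h1.trans ?_
  have h2 : ∀ f : κ → Finset ι, (∏ l, Gc m w γ l (f l)) *
        (α * ∑ p ∈ f i, w p + T t (f i) / (1 - τ)) =
      ∏ l, (if l = i then Gc m w γ l (f l) * (α * ∑ p ∈ f l, w p + T t (f l) / (1 - τ))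
        else Gc m w γ l (f l)) := by
    intro f
    rw [← Finset.mul_prod_erase univ _ (Finset.mem_univ i),
      ← Finset.mul_prod_erase univ (fun l => if l = i then _ else _) (Finset.mem_univ i),
      if_pos rfl]
    have h3 : ∏ l ∈ univ.erase i, (if l = i then Gc m w γ l (f l) *
        (α * ∑ p ∈ f l, w p + T t (f l) / (1 - τ)) else Gc m w γ l (f l)) =
        ∏ l ∈ univ.erase i, Gc m w γ l (f l) :=
      Finset.prod_congr rfl fun l hl => if_neg (Finset.ne_of_mem_erase hl)
    rw [h3]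
    ring
  simp only [h2]
  have h4 := tuple_scale (G := fun l => Gc m w γ l)
    (G' := fun l S => if l = i then Gc m w γ l S * (α * ∑ p ∈ S, w p + T t S / (1 - τ))
      else Gc m w γ l S)
    (r := fun l => if l = i then
      (if i = m then 0 else α * η + ρ i) else 1)
    (fun l S => by
      have := Gc_nonneg (γ := γ) hG.w_nonneg m l S
      split_ifs
      · exact mul_nonneg this (hu S)
      · exact this)
    (fun l => by
      by_cases h : l = i
      · subst h
        simp only [if_true]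
        by_cases hm : l = m
        · rw [if_pos hm, zero_mul]
          refine le_of_eq (Finset.sum_eq_zero fun S _ => ?_)
          unfold Gc
          rw [if_pos hm]
          split_ifs with hS
          · rw [hS]
            simp [T]
          · rw [zero_mul]
        · rw [if_neg hm, Gc_sum, if_neg hm]
          have h5 : ∑ S : Finset ι, Gc m w γ l S * (α * ∑ p ∈ S, w p + T t S / (1 - τ)) =
              α * (∑ S : Finset ι, γ l S ^ 2 * ws w S * ∑ p ∈ S, w p) + M1 w t (γ l) / (1 - τ) := by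
            unfold M1
            rw [Finset.mul_sum, Finset.sum_div, ← Finset.sum_add_distrib]
            refine Finset.sum_congr rfl fun S _ => ?_
            unfold Gc
            rw [if_neg hm]
            ring
          rw [h5]
          have h6 := sumSum hG.w_nonneg (G := fun S => γ l S ^ 2) (fun S => sq_nonneg _)
            (fun S S' hS => pow_le_pow_left₀ (hG.g_nonneg l S') (hG.g_anti l S S' hS) 2)
          have h7 : ∑ S : Finset ι, γ l S ^ 2 * ws w S = B1 w (γ l) := rfl
          rw [h7] at h6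
          have hB := B1_nonneg (γ := γ l) hG.w_nonneg
          have h8 : (∑ p, w p ^ 2) * B1 w (γ l) ≤ η * B1 w (γ l) :=
            mul_le_mul_of_nonneg_right hG.sq hB
          have h9 : M1 w t (γ l) / (1 - τ) ≤ ρ l * B1 w (γ l) := by
            rw [div_le_iff₀ hτ]
            linarith [hM l]
          have h10 := mul_le_mul_of_nonneg_left (h6.trans h8) hα
          linarith
      · simp only [if_neg h, one_mul]
        exact le_rfl)
  refine h4.trans (le_of_eq ?_)
  rw [Gc_prod_sum, Finset.prod_ite_eq' univ i]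
  simp

theorem wprime_ge (hG : GoodV w t γ τ η) (hw1 : ∀ p, w p ≤ w' p)
    (hw2 : ∀ p, w' p - w p ≤ 2 * w p ^ 2) (m : κ) (p : ι) :
    w p * (1 - 2 * Fintype.card κ * w p) ≤ w' p * (1 - ((Fintype.card κ : ℝ) - 1) * w' p) := by
  have hK : (1 : ℝ) ≤ Fintype.card κ := by
    have : 0 < Fintype.card κ := Fintype.card_pos_iff.2 ⟨m⟩
    exact_mod_cast this
  have h0 := hG.w_nonneg p
  have h1 := hG.w_le p
  have h2 := hw1 p
  have h3 := hw2 p
  have h4 : 8 * w p ≤ 1 := by nlinarith
  have h5 : w' p ≤ 5 / 4 * w p := by nlinarith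
  have h6 : ((Fintype.card κ : ℝ) - 1) * w' p ≤ ((Fintype.card κ : ℝ) - 1) * (5 / 4 * w p) :=
    mul_le_mul_of_nonneg_left h5 (by linarith)
  have h7 : ((Fintype.card κ : ℝ) - 1) * (5 / 4 * w p) ≤ 2 * Fintype.card κ * w p := by nlinarith
  have h8 : 2 * Fintype.card κ * w p ≤ 1 := by nlinarith
  calc w p * (1 - 2 * Fintype.card κ * w p) ≤ w' p * (1 - 2 * Fintype.card κ * w p) :=
        mul_le_mul_of_nonneg_right h2 (by linarith)
    _ ≤ _ := mul_le_mul_of_nonneg_left (by linarith) (h0.trans h2)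

theorem prod_wprime_ge (hG : GoodV w t γ τ η) (hw1 : ∀ p, w p ≤ w' p)
    (hw2 : ∀ p, w' p - w p ≤ 2 * w p ^ 2) (m : κ) (S : Finset ι) :
    ws w S * (1 - 2 * Fintype.card κ * ∑ p ∈ S, w p) ≤
      ∏ p ∈ S, w' p * (1 - ((Fintype.card κ : ℝ) - 1) * w' p) := by
  have hK : (1 : ℝ) ≤ Fintype.card κ := by
    have : 0 < Fintype.card κ := Fintype.card_pos_iff.2 ⟨m⟩
    exact_mod_cast this
  have h8 : ∀ p, 2 * Fintype.card κ * w p ≤ 1 := by
    intro p
    have h0 := hG.w_nonneg p
    have h1 := hG.w_le p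
    nlinarith
  have h9 : ∀ p, 0 ≤ 2 * Fintype.card κ * w p := fun p =>
    mul_nonneg (by linarith) (hG.w_nonneg p)
  have h1 : ∏ p ∈ S, w p * (1 - 2 * Fintype.card κ * w p) ≤
      ∏ p ∈ S, w' p * (1 - ((Fintype.card κ : ℝ) - 1) * w' p) := by
    refine Finset.prod_le_prod (fun p _ => mul_nonneg (hG.w_nonneg p) (by linarith [h8 p]))
      fun p _ => wprime_ge hG hw1 hw2 m p
  refine le_trans ?_ h1
  rw [Finset.prod_mul_distrib]
  refine mul_le_mul_of_nonneg_left ?_ (ws_nonneg hG.w_nonneg S)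
  have h2 := one_sub_le_prod (fun p => 2 * (Fintype.card κ : ℝ) * w p) S h9 h8
  rwa [← Finset.mul_sum] at h2

theorem Phi_eq {m : κ} {c : ι → Option κ} (hc : cls c m = ∅) :
    ∏ i, Gc m w γ i (cls c i) = Pm m γ c ^ 2 * ws w (supp c) := by
  rw [ws_supp, ← Finset.mul_prod_erase univ _ (Finset.mem_univ m),
    ← Finset.mul_prod_erase univ (fun i => ws w (cls c i)) (Finset.mem_univ m), hc]
  have h1 : Gc m w γ m (∅ : Finset ι) = 1 := by simp [Gc]
  have h2 : ws w (∅ : Finset ι) = 1 := by simp [ws]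
  rw [h1, h2, one_mul, one_mul]
  unfold Pm
  rw [← Finset.prod_pow, ← Finset.prod_mul_distrib]
  refine Finset.prod_congr rfl fun i hi => ?_
  unfold Gc
  rw [if_neg (Finset.ne_of_mem_erase hi)]

/-- The lower bound for one term. -/
theorem term_ge (hG : GoodV w t γ τ η) (hw1 : ∀ p, w p ≤ w' p)
    (hw2 : ∀ p, w' p - w p ≤ 2 * w p ^ 2) {m : κ} {c : ι → Option κ} (hc : cls c m = ∅) :
    A1 w (γ m) ^ 2 * ((∏ i, Gc m w γ i (cls c i)) * (1 - 8 * Fintype.card κ * η -
      ((2 * Fintype.card κ + 4) * ∑ p ∈ supp c, w p + T t (supp c) / (1 - τ)))) ≤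
      (∏ p ∈ supp c, w' p * (1 - ((Fintype.card κ : ℝ) - 1) * w' p)) *
          ym m w w' (yv t γ) c ^ 2 := by
  have hK : (1 : ℝ) ≤ Fintype.card κ := by
    have : 0 < Fintype.card κ := Fintype.card_pos_iff.2 ⟨m⟩
    exact_mod_cast this
  have hη : 0 ≤ η := le_trans (Finset.sum_nonneg fun p _ => sq_nonneg _) hG.sq
  have hτ : 0 < 1 - τ := by have := hG.tau_le; linarith
  have hT0 : 0 ≤ T t (supp c) := Finset.sum_nonneg fun p _ => hG.t_nonneg p
  set s : ℝ := ∑ p ∈ supp c, w p with hs
  have hs0 : 0 ≤ s := Finset.sum_nonneg fun p _ => hG.w_nonneg p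
  set K : ℝ := (Fintype.card κ : ℝ) with hKd
  have hws := ws_nonneg hG.w_nonneg (supp c)
  have hP := Pm_nonneg m hG.g_nonneg c
  have hA : 0 ≤ A1 w (γ m) := Finset.sum_nonneg fun S _ =>
    mul_nonneg (hG.g_nonneg _ _) (ws_nonneg hG.w_nonneg _)
  -- the right-hand side is nonnegative
  have hR : 0 ≤ (∏ p ∈ supp c, w' p * (1 - (K - 1) * w' p)) := by
    refine Finset.prod_nonneg fun p _ => ?_
    have h1 := wprime_ge hG hw1 hw2 m p
    have h0 := hG.w_nonneg p
    have h2 := hG.w_le p
    have h3 : 0 ≤ w p * (1 - 2 * K * w p) := mul_nonneg h0 (by nlinarith)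
    linarith
  rw [Phi_eq hc]
  have hTd : 0 ≤ T t (supp c) / (1 - τ) := div_nonneg hT0 hτ.le
  have hβ : 0 ≤ 8 * K * η := by positivity
  by_cases hh : 1 - 8 * K * η - ((2 * K + 4) * s + T t (supp c) / (1 - τ)) ≤ 0
  · have h1 : A1 w (γ m) ^ 2 * (Pm m γ c ^ 2 * ws w (supp c) *
        (1 - 8 * K * η - ((2 * K + 4) * s + T t (supp c) / (1 - τ)))) ≤ 0 :=
      mul_nonpos_of_nonneg_of_nonpos (sq_nonneg _)
        (mul_nonpos_of_nonneg_of_nonpos (mul_nonneg (sq_nonneg _) hws) hh)
    exact h1.trans (mul_nonneg hR (sq_nonneg _))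
  · push Not at hh
    have hKs : 0 ≤ K * s := mul_nonneg (by linarith) hs0
    have hT : T t (supp c) ≤ 1 - τ := by
      by_contra h
      push Not at h
      have h1 : 1 < T t (supp c) / (1 - τ) := by rwa [lt_div_iff₀ hτ, one_mul]
      nlinarith
    have h1 := ym_ge hG hw1 hw2 hc hT
    rw [← hs, ← hKd] at h1
    have h2 : 0 ≤ 1 - 2 * s - 4 * K * η := by nlinarith
    have h3 : 0 ≤ 1 - 2 * K * s := by nlinarith
    have h4 : 0 ≤ Pm m γ c * A1 w (γ m) * (1 - 2 * s - 4 * K * η) :=
      mul_nonneg (mul_nonneg hP hA) h2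
    have h5 : (Pm m γ c * A1 w (γ m) * (1 - 2 * s - 4 * K * η)) ^ 2 ≤
        ym m w w' (yv t γ) c ^ 2 := by
      have h6 := pow_le_pow_left₀ h4 h1 2
      have h7 : ((-1) ^ (supp c).card * ym m w w' (yv t γ) c) ^ 2 = ym m w w' (yv t γ) c ^ 2 := by
        rw [mul_pow, ← pow_mul, mul_comm, mul_comm _ 2, pow_mul]
        simp
      rwa [h7] at h6
    have h8 := prod_wprime_ge hG hw1 hw2 m (supp c)
    rw [← hs, ← hKd] at h8
    have h9 : ws w (supp c) * (1 - 2 * K * s) *
        (Pm m γ c * A1 w (γ m) * (1 - 2 * s - 4 * K * η)) ^ 2 ≤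
        (∏ p ∈ supp c, w' p * (1 - (K - 1) * w' p)) * ym m w w' (yv t γ) c ^ 2 :=
      mul_le_mul h8 h5 (sq_nonneg _) hR
    refine le_trans ?_ h9
    have h10 : (1 - 8 * K * η - ((2 * K + 4) * s + T t (supp c) / (1 - τ))) ≤
        (1 - 2 * K * s) * (1 - 2 * s - 4 * K * η) ^ 2 := by
      have h11 : 1 - 4 * s - 8 * K * η ≤ (1 - 2 * s - 4 * K * η) ^ 2 := by
        nlinarith [sq_nonneg (2 * s + 4 * K * η)]
      have h12 := mul_le_mul_of_nonneg_left h11 h3
      have h13 : 0 ≤ 2 * K * s * (4 * s + 8 * K * η) :=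
        mul_nonneg (by nlinarith) (by linarith)
      nlinarith
    have h14 : 0 ≤ A1 w (γ m) ^ 2 * (Pm m γ c ^ 2 * ws w (supp c)) :=
      mul_nonneg (sq_nonneg _) (mul_nonneg (sq_nonneg _) hws)
    have h15 := mul_le_mul_of_nonneg_left h10 h14
    calc _ = A1 w (γ m) ^ 2 * (Pm m γ c ^ 2 * ws w (supp c)) *
          (1 - 8 * K * η - ((2 * K + 4) * s + T t (supp c) / (1 - τ))) := by ring
      _ ≤ _ := h15
      _ = _ := by ring

end Main

/-- PV-L: the main term for primes. -/
theorem lowerMainV : LowerMainV := by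
  intro ι κ _ _ _ _ w w' t γ τ η ρ hG hw1 hw2 hρ hM hρ1 m
  have hK : (1 : ℝ) ≤ Fintype.card κ := by
    have : 0 < Fintype.card κ := Fintype.card_pos_iff.2 ⟨m⟩
    exact_mod_cast this
  have hη : 0 ≤ η := le_trans (Finset.sum_nonneg fun p _ => sq_nonneg _) hG.sq
  have hτ : 0 < 1 - τ := by have := hG.tau_le; linarith
  set K : ℝ := (Fintype.card κ : ℝ) with hKd
  have h1 : ∑ c ∈ univ.filter (fun c : ι → Option κ => cls c m = ∅),
      A1 w (γ m) ^ 2 * ((∏ i, Gc m w γ i (cls c i)) * (1 - 8 * K * η -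
        ((2 * K + 4) * ∑ p ∈ supp c, w p + T t (supp c) / (1 - τ)))) ≤
      ∑ c ∈ univ.filter (fun c : ι → Option κ => cls c m = ∅),
      (∏ p ∈ supp c, w' p * (1 - (K - 1) * w' p)) * ym m w w' (yv t γ) c ^ 2 :=
    Finset.sum_le_sum fun c hc => term_ge hG hw1 hw2 (Finset.mem_filter.1 hc).2
  refine le_trans ?_ h1
  rw [← Finset.mul_sum, Finset.sum_filter]
  have h2 : ∀ c : ι → Option κ, (if cls c m = ∅ then (∏ i, Gc m w γ i (cls c i)) *
      (1 - 8 * K * η - ((2 * K + 4) * ∑ p ∈ supp c, w p + T t (supp c) / (1 - τ))) else 0) =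
      (1 - 8 * K * η) * (∏ i, Gc m w γ i (cls c i)) -
        ∑ j : κ, (∏ i, Gc m w γ i (cls c i)) *
          ((2 * K + 4) * ∑ p ∈ cls c j, w p + T t (cls c j) / (1 - τ)) := by
    intro c
    rw [← Finset.mul_sum, Finset.sum_add_distrib, ← Finset.mul_sum, ← Finset.sum_div,
      ← sum_supp, ← T_supp]
    split_ifs with h
    · ring
    · have h3 : ∏ i, Gc m w γ i (cls c i) = 0 := by
        refine Finset.prod_eq_zero (Finset.mem_univ m) ?_
        unfold Gc
        rw [if_pos rfl, if_neg h]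
      rw [h3]
      ring
  simp only [h2]
  rw [Finset.sum_sub_distrib, ← Finset.mul_sum, Finset.sum_comm]
  have h4 := Phi_ge (κ := κ) hG m
  have h5 : ∑ j : κ, ∑ c : ι → Option κ, (∏ i, Gc m w γ i (cls c i)) *
      ((2 * K + 4) * ∑ p ∈ cls c j, w p + T t (cls c j) / (1 - τ)) ≤
      ∑ j : κ, (if j = m then 0 else (2 * K + 4) * η + ρ j) *
        (∏ l ∈ univ.erase m, B1 w (γ l)) :=
    Finset.sum_le_sum fun j _ => Phi_u hG hM m j (by linarith)
  rw [← Finset.sum_mul] at h5
  have hB := BB_nonneg (γ := γ) hG.w_nonneg m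
  have h6 : ∑ j : κ, (if j = m then 0 else (2 * K + 4) * η + ρ j) ≤
      (2 * K + 4) * (K - 1) * η + 1 / 10 := by
    rw [← Finset.add_sum_erase univ _ (Finset.mem_univ m), if_pos rfl, zero_add]
    have h7 : ∀ j ∈ univ.erase m, (if j = m then 0 else (2 * K + 4) * η + ρ j) =
        (2 * K + 4) * η + ρ j := by
      intro j hj
      rw [if_neg (Finset.ne_of_mem_erase hj)]
    rw [Finset.sum_congr rfl h7, Finset.sum_add_distrib, Finset.sum_const,
      Finset.card_erase_of_mem (Finset.mem_univ m),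
      Finset.card_univ, nsmul_eq_mul, Nat.cast_sub (Fintype.card_pos_iff.2 ⟨m⟩ : 1 ≤ Fintype.card κ),
      ← hKd, Nat.cast_one]
    have h8 : ∑ j ∈ univ.erase m, ρ j ≤ ∑ j, ρ j :=
      Finset.sum_le_sum_of_subset_of_nonneg (Finset.subset_univ _) fun j _ _ => hρ j
    linarith
  have h7 := h5.trans (mul_le_mul_of_nonneg_right h6 hB)
  have hE := hG.eta
  rw [← hKd] at hE h4
  have hK2 : K * η ≤ K ^ 2 * η := mul_le_mul_of_nonneg_right (by nlinarith) hη
  have h8 : 0 ≤ 1 - 8 * K * η := by nlinarith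
  have h9 := mul_le_mul_of_nonneg_left h4 h8
  have hA : 0 ≤ A1 w (γ m) ^ 2 := sq_nonneg _
  have h10 : 1 / 2 * (∏ l ∈ univ.erase m, B1 w (γ l)) ≤
      (1 - 8 * K * η) * ∑ c : ι → Option κ, ∏ i, Gc m w γ i (cls c i) -
        ∑ j : κ, ∑ c : ι → Option κ, (∏ i, Gc m w γ i (cls c i)) *
          ((2 * K + 4) * ∑ p ∈ cls c j, w p + T t (cls c j) / (1 - τ)) := by
    have h11 : 1 / 2 ≤ (1 - 8 * K * η) * (1 - K ^ 2 * η) -
        ((2 * K + 4) * (K - 1) * η + 1 / 10) := by
      have h12 : (1 - 8 * K * η) * (1 - K ^ 2 * η) = 1 - 8 * (K * η) - K ^ 2 * η +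
          8 * (K * η) * (K ^ 2 * η) := by ring
      have h13 : 0 ≤ 8 * (K * η) * (K ^ 2 * η) := by positivity
      have h14 : (2 * K + 4) * (K - 1) * η = 2 * (K ^ 2 * η) + 2 * (K * η) - 4 * η := by ring
      rw [h12, h14]
      nlinarith
    have h12 := mul_le_mul_of_nonneg_right h11 hB
    nlinarith
  have h11 := mul_le_mul_of_nonneg_left h10 hA
  linarith

end Pool.Agent.Helper95.PV
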